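import Pool.Agent.H6.RCQ.Stmts1
import Pool.Agent.H6.RCQ.Stmts2

/-!
# Project RCQ, module AZ: the centre
-/

set_option autoImplicit false

namespace Pool.Agent.H87.RCQ.AZ

open Pool.Agent.H39.RC Pool.Agent.H6.RCQ
open Classical

/-- the attachments of two private neighbours on the same side meet -/
lemma az_core {V : Type} {G : SimpleGraph V} (T J : V → V → Prop) (B E : Finset V)
    (hJ : ∀ w a a', (w ∈ B ∨ w ∈ E) → T w a → T w a' → a ≠ a' → J a a')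
    (h3 : ∀ a b c, J a b → J b c → J c a → False)
    (h4 : ∀ a b c d, a ≠ c → b ≠ d → J a b → J b c → J c d → J d a → False)
    (hAL : ∀ b ∈ B, ∀ e ∈ E, (∀ a, T b a ↔ T e a) ∨ ∃ h, G.Adj b h ∧ T b h ∧ T e h)
    (hAK : ∀ b ∈ B, ∀ b' ∈ B, ∀ a a', b ≠ b' → a ≠ a' → T b a → T b a' → G.Adj b a →
      G.Adj b a' → G.Adj b' a → G.Adj b' a' → False)
    (hne : ∀ w, (w ∈ B ∨ w ∈ E) → ∃ a, T w a) (hB : 2 ≤ B.card) :
    ∀ e ∈ E, ∀ e' ∈ E, ∃ a, T e a ∧ T e' a := by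
  intro e he e' he'
  by_contra hcon
  push Not at hcon
  have key : ∀ b ∈ B, ∃ h h', G.Adj b h ∧ G.Adj b h' ∧ T b h ∧ T b h' ∧ T e h ∧ T e' h' := by
    intro b hb
    obtain ⟨a0, ha0⟩ := hne b (Or.inl hb)
    rcases hAL b hb e he with h1 | ⟨h, h1, h2, h3'⟩
    · rcases hAL b hb e' he' with h1' | ⟨h, -, h2, h3'⟩
      · exact absurd ((h1' a0).1 ha0) (hcon a0 ((h1 a0).1 ha0))
      · exact absurd h3' (hcon h ((h1 h).1 h2))
    · rcases hAL b hb e' he' with h1' | ⟨h', h1', h2', h3''⟩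
      · exact absurd ((h1' h).1 h2) (hcon h h3')
      · exact ⟨h, h', h1, h1', h2, h2', h3', h3''⟩
  obtain ⟨b, hb, b', hb', hbb⟩ := Finset.one_lt_card.1 (show 1 < B.card by omega)
  obtain ⟨h1, h1', e1, e1', t1, t1', s1, s1'⟩ := key b hb
  obtain ⟨h2, h2', e2, e2', t2, t2', s2, s2'⟩ := key b' hb'
  have n1 : h1 ≠ h1' := fun h => hcon h1 s1 (h ▸ s1')
  have n2 : h2 ≠ h2' := fun h => hcon h2 s2 (h ▸ s2')
  have n3 : h1 ≠ h2' := fun h => hcon h1 s1 (h ▸ s2')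
  have n4 : h2 ≠ h1' := fun h => hcon h2 s2 (h ▸ s1')
  have wb : b ∈ B ∨ b ∈ E := Or.inl hb
  have wb' : b' ∈ B ∨ b' ∈ E := Or.inl hb'
  have we : e ∈ B ∨ e ∈ E := Or.inr he
  have we' : e' ∈ B ∨ e' ∈ E := Or.inr he'
  by_cases c1 : h1 = h2
  · by_cases c2 : h1' = h2'
    · exact hAK b hb b' hb' h1 h1' hbb n1 t1 t1' e1 e1' (c1 ▸ e2) (c2 ▸ e2')
    · rw [← c1] at t2 n2
      exact h3 h1 h1' h2' (hJ b _ _ wb t1 t1' n1) (hJ e' _ _ we' s1' s2' c2)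
        (hJ b' _ _ wb' t2' t2 n2.symm)
  · by_cases c2 : h1' = h2'
    · rw [← c2] at t2' n2
      exact h3 h1 h2 h1' (hJ e _ _ we s1 s2 c1) (hJ b' _ _ wb' t2 t2' n2)
        (hJ b _ _ wb t1' t1 n1.symm)
    · exact h4 h1 h2 h2' h1' n3 n4 (hJ e _ _ we s1 s2 c1) (hJ b' _ _ wb' t2 t2' n2)
        (hJ e' _ _ we' s2' s1' (fun h => c2 h.symm)) (hJ b _ _ wb t1' t1 n1.symm)

theorem az (hAS : ASStmt) (hAB : ABStmt) (hAL : ALStmt) (hAK : AKStmt) (hPE1 : PE1Stmt)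
    (hPE3 : PE3Stmt) (hPE4 : PE4Stmt) : AZStmt := by
  intro V G p lab R x y hCA hPP
  obtain ⟨hCA', hCN, -, -, -, hAt, hPol⟩ := hAS V G p lab R x y hCA
  have hG := hCA.cfg.pg
  have h5 := hCA.five
  have hp := hCA.two
  obtain ⟨hB, hE⟩ := hAB V G p lab R x y hCA
  set A := CN G R x y with hA
  set B := PB G R x y with hBdef
  set E := PB G R y x with hEdef
  set T : V → V → Prop := fun w a => a ∈ A ∧ At G R x y w a with hT
  set J : V → V → Prop := EJ G {x} {y} A with hJdef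
  have hJ : ∀ w a a', T w a → T w a' → a ≠ a' → J a a' := by
    intro w a a' h1 h2 hne
    exact ⟨h1.1, h2.1, hne, Or.inr ⟨w, h1.2, h2.2⟩⟩
  have h3 : ∀ a b c, J a b → J b c → J c a → False := fun a b c =>
    hPE3 V G {x} {y} A hG hPol (Or.inr (by omega)) a b c
  have h4 : ∀ a b c d, a ≠ c → b ≠ d → J a b → J b c → J c d → J d a → False := fun a b c d =>
    hPE4 V G {x} {y} A hG hPol (Or.inr h5) a b c d
  have hAL1 : ∀ b ∈ B, ∀ e ∈ E, (∀ a, T b a ↔ T e a) ∨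
      ∃ h, (G.Adj b h ∧ G.Adj e h) ∧ T b h ∧ T e h := by
    intro b hb e he
    rcases hAL V G p lab R x y hCA b hb e he with h | ⟨h, h1, h2, h3, h4, h5⟩
    · left
      intro a
      simp only [hT, h a]
    · exact Or.inr ⟨h, ⟨h2, h3.symm⟩, ⟨h1, h4⟩, ⟨h1, h5⟩⟩
  -- all attachment sets are nonempty
  have hBne : B.Nonempty := Finset.card_pos.1 (by omega)
  have hEne : E.Nonempty := Finset.card_pos.1 (by omega)
  have hne : ∀ w, (w ∈ B ∨ w ∈ E) → ∃ a, T w a := by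
    obtain ⟨a0, ha0⟩ := hPP
    obtain ⟨ha0A, w0, hw0, hw0a⟩ := Finset.mem_filter.1 ha0
    have ht0 : T w0 a0 := ⟨ha0A, hw0a⟩
    have hBE : ∀ b ∈ B, ∀ e ∈ E, (∃ a, T b a) ↔ ∃ a, T e a := by
      intro b hb e he
      rcases hAL1 b hb e he with h | ⟨h, -, h1, h2⟩
      · exact ⟨fun ⟨a, ha⟩ => ⟨a, (h a).1 ha⟩, fun ⟨a, ha⟩ => ⟨a, (h a).2 ha⟩⟩
      · exact ⟨fun _ => ⟨h, h2⟩, fun _ => ⟨h, h1⟩⟩
    obtain ⟨b1, hb1⟩ := hBne
    obtain ⟨e1, he1⟩ := hEne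
    have hb1T : ∃ a, T b1 a := by
      rcases hw0 with h | h
      · exact (hBE b1 hb1 e1 he1).2 ((hBE w0 h e1 he1).1 ⟨a0, ht0⟩)
      · exact (hBE b1 hb1 w0 h).2 ⟨a0, ht0⟩
    have he1T : ∃ a, T e1 a := (hBE b1 hb1 e1 he1).1 hb1T
    rintro w (h | h)
    · exact (hBE w h e1 he1).2 he1T
    · exact (hBE b1 hb1 w h).1 hb1T
  -- pairwise intersections
  have hEE : ∀ e ∈ E, ∀ e' ∈ E, ∃ a, T e a ∧ T e' a := by
    refine az_core (G := G) T J B E (fun w a a' _ => hJ w a a') h3 h4 ?_ ?_ hne (by omega)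
    · intro b hb e he
      rcases hAL1 b hb e he with h | ⟨h, h1, h2, h3⟩
      · exact Or.inl h
      · exact Or.inr ⟨h, h1.1, h2, h3⟩
    · intro b hb b' hb' a a' hbb haa t1 t2 e1 e2 e3 e4
      exact hAK V G p lab R x y hCA a t1.1 a' t2.1 haa b hb b' hb' hbb e1 e2 e3 e4
  have hBB : ∀ b ∈ B, ∀ b' ∈ B, ∃ a, T b a ∧ T b' a := by
    refine az_core (G := G) T J E B (fun w a a' _ => hJ w a a') h3 h4 ?_ ?_
      (fun w hw => hne w hw.symm) (by omega)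
    · intro e he b hb
      rcases hAL1 b hb e he with h | ⟨h, h1, h2, h3⟩
      · exact Or.inl (fun a => (h a).symm)
      · exact Or.inr ⟨h, h1.2, h3, h2⟩
    · intro b hb b' hb' a a' hbb haa t1 t2 e1 e2 e3 e4
      exact hAK V G p lab R y x hCA' a (hCN ▸ t1.1) a' (hCN ▸ t2.1) haa b hb b' hb' hbb e1 e2 e3 e4
  have hBE : ∀ b ∈ B, ∀ e ∈ E, ∃ a, T b a ∧ T e a := by
    intro b hb e he
    rcases hAL1 b hb e he with h | ⟨h, -, h1, h2⟩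
    · obtain ⟨a, ha⟩ := hne b (Or.inl hb)
      exact ⟨a, ha, (h a).1 ha⟩
    · exact ⟨h, h1, h2⟩
  have hWW : ∀ w w', (w ∈ B ∨ w ∈ E) → (w' ∈ B ∨ w' ∈ E) → ∃ a, T w a ∧ T w' a := by
    rintro w w' (h | h) (h' | h')
    · exact hBB w h w' h'
    · exact hBE w h w' h'
    · obtain ⟨a, h1, h2⟩ := hBE w' h' w h
      exact ⟨a, h2, h1⟩
    · exact hEE w h w' h'
  -- at most two attachments
  have hatt2 : ∀ w a b c, T w a → T w b → T w c → a ≠ b → a ≠ c → b ≠ c → False := by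
    intro w a b c h1 h2 h3 n1 n2 n3
    exact hPE1 V G {x} {y} A hG hPol w a b c h1.1 h2.1 h3.1 n1 n2 n3 h1.2 h2.2 h3.2
  obtain ⟨w0, hw0⟩ := hBne
  obtain ⟨z1, hz1⟩ := hne w0 (Or.inl hw0)
  by_cases hall1 : ∀ w, (w ∈ B ∨ w ∈ E) → T w z1
  · exact ⟨z1, hz1.1, fun w hw => (hall1 w hw).2⟩
  · push Not at hall1
    obtain ⟨w1, hw1, hn1⟩ := hall1
    obtain ⟨z2, hz2, hz2'⟩ := hWW w0 w1 (Or.inl hw0) hw1
    have n12 : z1 ≠ z2 := fun h => hn1 (h ▸ hz2')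
    by_cases hall2 : ∀ w, (w ∈ B ∨ w ∈ E) → T w z2
    · exact ⟨z2, hz2.1, fun w hw => (hall2 w hw).2⟩
    · exfalso
      push Not at hall2
      obtain ⟨w2, hw2, hn2⟩ := hall2
      obtain ⟨z, hz, hz'⟩ := hWW w0 w2 (Or.inl hw0) hw2
      have hzz : z = z1 := by
        by_contra hne1
        have hne2 : z ≠ z2 := fun h => hn2 (h ▸ hz')
        exact hatt2 w0 z1 z2 z hz1 hz2 hz n12 (fun h => hne1 h.symm) (fun h => hne2 h.symm)
      rw [hzz] at hz'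
      obtain ⟨z3, h31, h32⟩ := hWW w1 w2 hw1 hw2
      have n13 : z3 ≠ z1 := fun h => hn1 (h ▸ h31)
      have n23 : z2 ≠ z3 := fun h => hn2 (h ▸ h32)
      exact h3 z1 z2 z3 (hJ w0 _ _ hz1 hz2 n12) (hJ w1 _ _ hz2' h31 n23)
        (hJ w2 _ _ h32 hz' n13)

end Pool.Agent.H87.RCQ.AZ
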