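import Pool.Agent.H6.RCQ.Stmts1
import Pool.Agent.H6.RCQ.Stmts3

/-!
# Project RCQ, module B6P
-/

set_option autoImplicit false

namespace Pool.Agent.H87.RCQ.B6P

open Pool.Agent.H39.RC Pool.Agent.H6.RCQ
open Classical

theorem b6p (hCOB : COBStmt) : B6PStmt := by
  intro V G p lab R hCB x
  have hG := hCB.cfg.pg
  have key : ∀ l : Fin p, ((D G R x).filter (fun v => lab x v = l)).card ≤ 6 ∧
      (((D G R x).filter (fun v => lab x v = l)).card = 6 →
        Six G ((D G R x).filter (fun v => lab x v = l))) := by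
    intro l
    have hmem : ∀ m, m ∈ (D G R x).filter (fun v => lab x v = l) ↔
        (m ∈ R ∧ G.Adj x m) ∧ lab x m = l := by
      intro m
      unfold D
      rw [Finset.mem_filter, Finset.mem_filter]
    refine hCOB V G {x} _ hG ⟨con_single x, ?_, ?_, ?_⟩ ?_
    · exact fun m hm => ((hmem m).1 hm).1.2.ne'
    · exact fun m hm => ⟨x, rfl, ((hmem m).1 hm).1.2⟩
    · intro m hm m' hm' hne
      rw [hmem] at hm hm'
      rcases hCB.cfg.lk m hm.1.1 m' hm'.1.1 hne with h | ⟨w, -, h2, h3, h4⟩
      · exact Or.inl h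
      · refine Or.inr ⟨w, ?_, h2.symm, h3⟩
        intro hw
        rw [Set.mem_singleton_iff] at hw
        subst hw
        exact h4 (hm.2.trans hm'.2.symm)
    · intro g hg
      have hgx : x ≠ g := fun h => hg h.symm
      refine (Finset.card_le_card ?_).trans (hCB.co x g hgx)
      intro v hv
      rw [Finset.mem_filter, hmem] at hv
      exact Finset.mem_filter.2 ⟨hv.1.1.1, hv.1.1.2, hv.2⟩
  refine ⟨?_, key⟩
  have hsum : (D G R x).card = ∑ l : Fin p, ((D G R x).filter (fun v => lab x v = l)).card :=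
    Finset.card_eq_sum_card_fiberwise (fun _ _ => Finset.mem_coe.2 (Finset.mem_univ _))
  rw [hsum]
  refine (Finset.sum_le_sum (fun l _ => (key l).1)).trans ?_
  rw [Finset.sum_const, Finset.card_univ, Fintype.card_fin, smul_eq_mul]
  omega

end Pool.Agent.H87.RCQ.B6P
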