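import Pool.Agent.H6.RCQ.Stmts1

/-!
# Project RCQ, module COM: the cofacial lemma
-/

set_option autoImplicit false

namespace Pool.Agent.H87.RCQ.COM

open Pool.Agent.H39.RC Pool.Agent.H6.RCQ
open Classical

lemma lr_rch {V : Type} {G : SimpleGraph V} {p : ℕ} {lab : V → V → Fin p} {O : Set V} {u v : V}
    (h : LR G lab O u v) : Rch G O u v := by
  rcases h with h | ⟨w, h1, h2, h3, -⟩
  · exact Or.inl h
  · exact Or.inr ⟨w, h1, h2.symm, h3⟩

theorem com (hCOA : COAStmt) (hCOB : COBStmt) (hPE6 : PE6Stmt) (hPE7 : PE7Stmt) : COMStmt := by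
  intro V G p lab O M hp hG hO hMO hMa hLR
  have hCoF : CoF G O M := ⟨hO, hMO, hMa, fun m hm m' hm' hne => lr_rch (hLR m hm m' hm' hne)⟩
  by_cases hcase : ∀ g, g ∉ O → (M.filter (fun v => G.Adj g v)).card ≤ 4
  · have h1 := (hCOB V G O M hG hCoF hcase).1
    exact ⟨by omega, fun h => by omega⟩
  · push Not at hcase
    obtain ⟨g, hgO, hg5⟩ := hcase
    have hgall : ∀ m ∈ M, m ≠ g → G.Adj g m := hCOA V G O M hG hCoF g hgO (by omega)
    set M' := M.erase g with hM'
    have hM'mem : ∀ m, m ∈ M' ↔ m ≠ g ∧ m ∈ M := fun m => Finset.mem_erase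
    have hcard1 : M.card ≤ M'.card + 1 := by
      have h := Finset.pred_card_le_card_erase (s := M) (a := g)
      rw [← hM'] at h
      omega
    by_cases h6 : 6 ≤ M'.card
    swap
    · exact ⟨by omega, fun h => by omega⟩
    have hPol : Pol G O {g} M' := by
      refine ⟨hO, con_single g, ?_, ?_, ?_, ?_, ?_⟩
      · rw [Set.disjoint_singleton_right]
        exact hgO
      · exact fun s hs => hMO s ((hM'mem s).1 hs).2
      · exact fun s hs => ((hM'mem s).1 hs).1
      · exact fun s hs => hMa s ((hM'mem s).1 hs).2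
      · exact fun s hs => ⟨g, rfl, hgall s ((hM'mem s).1 hs).2 ((hM'mem s).1 hs).1⟩
    have hcl : ∀ l : Fin p, ∀ s ∈ M'.filter (fun v => lab g v = l),
        ∀ t ∈ M'.filter (fun v => lab g v = l), s ≠ t → Rch G (O ∪ {g}) s t := by
      intro l s hs t ht hst
      rw [Finset.mem_filter, hM'mem] at hs ht
      rcases hLR s hs.1.2 t ht.1.2 hst with h | ⟨w, h1, h2, h3, h4⟩
      · exact Or.inl h
      · refine Or.inr ⟨w, ?_, h2.symm, h3⟩
        rintro (hw | hw)
        · exact h1 hw
        · rw [Set.mem_singleton_iff] at hw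
          subst hw
          exact h4 (hs.2.trans ht.2.symm)
    have hcl3 : ∀ l : Fin p, (M'.filter (fun v => lab g v = l)).card ≤ 3 := by
      intro l
      exact hPE7 V G O {g} M' _ hG hPol h6 (Finset.filter_subset _ _) (hcl l)
    have hsum : M'.card = ∑ l : Fin p, (M'.filter (fun v => lab g v = l)).card :=
      Finset.card_eq_sum_card_fiberwise (fun _ _ => Finset.mem_coe.2 (Finset.mem_univ _))
    have hM'le : M'.card ≤ 3 * p := by
      rw [hsum]
      refine (Finset.sum_le_sum (fun l _ => hcl3 l)).trans ?_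
      rw [Finset.sum_const, Finset.card_univ, Fintype.card_fin, smul_eq_mul]
      omega
    refine ⟨by omega, fun hcard => ?_⟩
    have hM'card : M'.card = 3 * p := by omega
    have hgM : g ∈ M := by
      by_contra hgM
      have : M' = M := Finset.erase_eq_of_notMem hgM
      rw [this] at hM'card
      omega
    have hcl3' : ∀ l : Fin p, (M'.filter (fun v => lab g v = l)).card = 3 := by
      by_contra hne
      push Not at hne
      obtain ⟨l0, hl0⟩ := hne
      have hlt : (M'.filter (fun v => lab g v = l0)).card < 3 := lt_of_le_of_ne (hcl3 l0) hl0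
      have : ∑ l : Fin p, (M'.filter (fun v => lab g v = l)).card < ∑ _l : Fin p, 3 :=
        Finset.sum_lt_sum (fun l _ => hcl3 l) ⟨l0, Finset.mem_univ _, hlt⟩
      rw [← hsum, Finset.sum_const, Finset.card_univ, Fintype.card_fin, smul_eq_mul] at this
      omega
    have hPadj : PAdj G O {g} := by
      obtain ⟨z, hz, hzg⟩ := hMa g hgM
      exact ⟨z, hz, g, rfl, hzg⟩
    refine ⟨g, hgM, hgall, fun l => ?_⟩
    have hPol' : Pol G O {g} (M'.filter (fun v => lab g v = l)) :=
      ⟨hPol.cP, hPol.cQ, hPol.dis, fun s hs => hPol.oP s (Finset.mem_filter.1 hs).1,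
        fun s hs => hPol.oQ s (Finset.mem_filter.1 hs).1,
        fun s hs => hPol.aP s (Finset.mem_filter.1 hs).1,
        fun s hs => hPol.aQ s (Finset.mem_filter.1 hs).1⟩
    obtain ⟨a, b, c, hS, hab, hbc, hac, e1, e2, -⟩ :=
      (hPE6 V G O {g} _ hG hPol' hPadj (hcl l)).2 (hcl3' l)
    have hmem : ∀ v, v ∈ M'.filter (fun v => lab g v = l) ↔ v = a ∨ v = b ∨ v = c := by
      intro v
      rw [hS]
      simp only [Finset.mem_insert, Finset.mem_singleton]
    have ha := (hmem a).2 (Or.inl rfl)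
    have hb := (hmem b).2 (Or.inr (Or.inl rfl))
    have hc := (hmem c).2 (Or.inr (Or.inr rfl))
    rw [Finset.mem_filter, hM'mem] at ha hb hc
    refine ⟨a, b, c, ha.1.2, hb.1.2, hc.1.2, ha.1.1, hb.1.1, hc.1.1, hab, hbc, hac, e1, e2, ?_⟩
    intro v hv hvg
    rw [← hmem v, Finset.mem_filter, hM'mem]
    exact ⟨fun h => ⟨⟨hvg, hv⟩, h⟩, fun h => h.2⟩

end Pool.Agent.H87.RCQ.COM
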