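import Pool.Agent.H6.RCQ.Stmts1

/-!
# Project RCQ, module FC: full classes
-/

set_option autoImplicit false

namespace Pool.Agent.H87.RCQ.FC

open Pool.Agent.H39.RC Pool.Agent.H6.RCQ
open Classical

lemma fc_pol {V : Type} {G : SimpleGraph V} {x g : V} {S : Finset V} (hxg : x ≠ g)
    (h1 : ∀ s ∈ S, G.Adj x s) (h2 : ∀ s ∈ S, G.Adj g s) : Pol G {x} {g} S := by
  refine ⟨con_single x, con_single g, ?_, ?_, ?_, ?_, ?_⟩
  · rw [Set.disjoint_singleton]
    exact hxg
  · exact fun s hs => (h1 s hs).ne'
  · exact fun s hs => (h2 s hs).ne'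
  · exact fun s hs => ⟨x, rfl, h1 s hs⟩
  · exact fun s hs => ⟨g, rfl, h2 s hs⟩

theorem fc (hCOM : COMStmt) (hDOM : DOMStmt) (hPE3 : PE3Stmt) : FCStmt := by
  intro V G p lab R M x hp hC hMD hMl hMc u hu
  have hG := hC.pg
  have hMx : ∀ m ∈ M, G.Adj x m := fun m hm => (Finset.mem_filter.1 (hMD hm)).2
  have hMR : ∀ m ∈ M, m ∈ R := fun m hm => (Finset.mem_filter.1 (hMD hm)).1
  obtain ⟨huR, hux, huxa⟩ := Finset.mem_filter.1 hu
  have hne : ∀ m, G.Adj x m → u ≠ m := fun m hm h => huxa (h ▸ hm)
  obtain ⟨g, hgM, hgall, hcls⟩ := (hCOM V G p lab {x} M hp hG (con_single x)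
    (fun m hm => (hMx m hm).ne') (fun m hm => ⟨x, rfl, hMx m hm⟩) (by
      intro m hm m' hm' hmm
      rcases hC.lk m (hMR m hm) m' (hMR m' hm') hmm with h | ⟨w, -, h2, h3, h4⟩
      · exact Or.inl h
      · refine Or.inr ⟨w, ?_, h2, h3, h4⟩
        intro hw
        rw [Set.mem_singleton_iff] at hw
        subst hw
        exact h4 (hMl m hm m' hm'))).2 hMc
  have hxg := (hMx g hgM).ne
  -- u is adjacent to g
  have hug : G.Adj u g := by
    by_contra hug
    have hPol : Pol G {x} {g} (M.erase g) := fc_pol hxg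
      (fun s hs => hMx s (Finset.mem_of_mem_erase hs))
      (fun s hs => hgall s (Finset.mem_of_mem_erase hs) (Finset.ne_of_mem_erase hs))
    have hcard : 5 ≤ (M.erase g).card := by
      rw [Finset.card_erase_of_mem hgM]
      omega
    refine hDOM V G {x} {g} (M.erase g) hG hPol hcard u ?_ ?_
    · rintro ((h | h) | h)
      · exact hux h
      · exact hne g (hMx g hgM) h
      · exact hne u (hMx u (Finset.mem_of_mem_erase (Finset.mem_coe.1 h))) rfl
    · intro s hs
      have hsM := Finset.mem_of_mem_erase hs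
      rcases hC.lk u huR s (hMR s hsM) (hne s (hMx s hsM)) with h | ⟨w, -, h2, h3, h4⟩
      · exact Or.inl h
      · refine Or.inr ⟨w, ?_, h2.symm, h3⟩
        rintro (hw | hw)
        · rw [Set.mem_singleton_iff] at hw
          subst hw
          exact huxa h2
        · rw [Set.mem_singleton_iff] at hw
          subst hw
          exact hug h2.symm
  obtain ⟨a, b, c, haM, hbM, hcM, hag, hbg, hcg, hab, hbc, hac, eab, ebc, hcl⟩ := hcls (lab g u)
  have xa := hMx a haM
  have xb := hMx b hbM
  have xc := hMx c hcM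
  have xg := hMx g hgM
  have ga := hgall a haM hag
  have gb := hgall b hbM hbg
  have gc := hgall c hcM hcg
  have la : lab g a = lab g u := (hcl a haM hag).2 (Or.inl rfl)
  have lb : lab g b = lab g u := (hcl b hbM hbg).2 (Or.inr (Or.inl rfl))
  have lc : lab g c = lab g u := (hcl c hcM hcg).2 (Or.inr (Or.inr rfl))
  set S : Finset V := {a, b, c} with hS
  have memS : ∀ s, s ∈ S ↔ s = a ∨ s = b ∨ s = c := by
    intro s
    simp only [hS, Finset.mem_insert, Finset.mem_singleton]
  have aS : a ∈ S := (memS a).2 (Or.inl rfl)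
  have bS : b ∈ S := (memS b).2 (Or.inr (Or.inl rfl))
  have cS : c ∈ S := (memS c).2 (Or.inr (Or.inr rfl))
  have hPol : Pol G {x} {g} S := by
    refine fc_pol hxg ?_ ?_
    · intro s hs
      rcases (memS s).1 hs with h | h | h <;> rw [h] <;> assumption
    · intro s hs
      rcases (memS s).1 hs with h | h | h <;> rw [h] <;> assumption
  have hnEJ : ¬ EJ G {x} {g} S c a := by
    intro h
    exact hPE3 V G {x} {g} S hG hPol (Or.inl ⟨x, rfl, g, rfl, xg⟩) a b c
      ⟨aS, bS, hab, Or.inl eab⟩ ⟨bS, cS, hbc, Or.inl ebc⟩ h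
  have huX : u ∉ XX {x} {g} S := by
    rintro ((h | h) | h)
    · exact hux h
    · exact hne g xg h
    · rcases (memS u).1 (Finset.mem_coe.1 h) with h | h | h
      · exact hne a xa h
      · exact hne b xb h
      · exact hne c xc h
  -- links of u with the elements of S
  have hlink : ∀ s ∈ S, s ∈ R → G.Adj x s → lab g s = lab g u →
      Lnk G (XX {x} {g} S) u s ∨ ∃ w ∈ S, G.Adj u w ∧ G.Adj w s := by
    intro s hs hsR hxs hls
    rcases hC.lk u huR s hsR (hne s hxs) with h | ⟨w, -, h2, h3, h4⟩
    · exact Or.inl (lnk_adj huX h)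
    · by_cases hwS : w ∈ S
      · exact Or.inr ⟨w, hwS, h2.symm, h3⟩
      · left
        have hwX : w ∉ XX {x} {g} S := by
          rintro ((h | h) | h)
          · rw [Set.mem_singleton_iff] at h
            subst h
            exact huxa h2
          · rw [Set.mem_singleton_iff] at h
            subst h
            exact h4 hls.symm
          · exact hwS (Finset.mem_coe.1 h)
        exact lnk_cons huX h2.symm (lnk_adj hwX h3)
  have hub : G.Adj u b := by
    have hla := hlink a aS (hMR a haM) xa la
    have hlc := hlink c cS (hMR c hcM) xc lc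
    rcases hla with hla | ⟨w, hw, h1, h2⟩
    · rcases hlc with hlc | ⟨w, hw, h1, h2⟩
      · exact absurd ⟨cS, aS, hac.symm, Or.inr ⟨u, hlc, hla⟩⟩ hnEJ
      · rcases (memS w).1 hw with h | h | h
        · rw [h] at h2
          exact absurd ⟨cS, aS, hac.symm, Or.inl h2.symm⟩ hnEJ
        · exact h ▸ h1
        · exact absurd h h2.ne
    · rcases (memS w).1 hw with h | h | h
      · exact absurd h h2.ne
      · exact h ▸ h1
      · rw [h] at h2
        exact absurd ⟨cS, aS, hac.symm, Or.inl h2⟩ hnEJ
  -- common neighbours of x and u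
  have hcn : ∀ d, G.Adj x d → G.Adj u d → d = g ∨ d = a ∨ d = b ∨ d = c := by
    intro d hxd hud
    by_contra hd
    push Not at hd
    obtain ⟨d1, d2, d3, d4⟩ := hd
    have hdX : d ∉ ({a, c, x, g, b} : Set V) := by
      simp only [Set.mem_insert_iff, Set.mem_singleton_iff, not_or]
      exact ⟨d2, d4, hxd.ne', d1, d3⟩
    have huX' : u ∉ ({a, c, x, g, b} : Set V) := by
      simp only [Set.mem_insert_iff, Set.mem_singleton_iff, not_or]
      exact ⟨hne a xa, hne c xc, hux, hne g xg, hne b xb⟩
    exact no_k33 hG.k33 (X := {a, c, x, g, b}) hac hxg xb.ne gb.ne (by simp) (by simp) (by simp)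
      (by simp) (by simp) xa.symm ga.symm eab xc.symm gc.symm ebc.symm
      (lnk_cons huX' hud (lnk_adj hdX hxd.symm)) (lnk_adj huX' hug) (lnk_adj huX' hub)
  refine ⟨⟨g, hgM, hug⟩, ?_, ?_⟩
  · intro d hd hud
    rcases hcn d (Finset.mem_filter.1 hd).2 hud with h | h | h | h <;> rw [h] <;> assumption
  · have hnot : ¬ (G.Adj u a ∧ G.Adj u c) := by
      rintro ⟨h1, h2⟩
      exact no_three hG.k33 hxg hux (hne g xg) hab hac hbc xa xb xc ga gb gc h1 hub h2
    by_cases hua : G.Adj u a
    · have hsub : CN G R x u ⊆ {g, b, a} := by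
        intro d hd
        obtain ⟨-, h1, h2⟩ := Finset.mem_filter.1 hd
        simp only [Finset.mem_insert, Finset.mem_singleton]
        rcases hcn d h1 h2 with h | h | h | h
        · exact Or.inl h
        · exact Or.inr (Or.inr h)
        · exact Or.inr (Or.inl h)
        · rw [h] at h2
          exact absurd ⟨hua, h2⟩ hnot
      exact (Finset.card_le_card hsub).trans Finset.card_le_three
    · have hsub : CN G R x u ⊆ {g, b, c} := by
        intro d hd
        obtain ⟨-, h1, h2⟩ := Finset.mem_filter.1 hd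
        simp only [Finset.mem_insert, Finset.mem_singleton]
        rcases hcn d h1 h2 with h | h | h | h
        · exact Or.inl h
        · rw [h] at h2
          exact absurd h2 hua
        · exact Or.inr (Or.inl h)
        · exact Or.inr (Or.inr h)
      exact (Finset.card_le_card hsub).trans Finset.card_le_three

end Pool.Agent.H87.RCQ.FC
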