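import Pool.Agent.H6.RCQ.Stmts1

/-!
# Project RCQ, module PE5
-/

set_option autoImplicit false

namespace Pool.Agent.H87.RCQ.PE5

open Pool.Agent.H39.RC Pool.Agent.H6.RCQ
open Classical

variable {V : Type} {G : SimpleGraph V} {P Q : Set V}

lemma lnk_of_ej {S : Finset V} {X' : Set V} {s t : V} (h : EJ G P Q S s t)
    (hX : X' ⊆ XX P Q S) (hs : s ∉ X') : Lnk G X' s t := by
  obtain ⟨-, -, -, h | ⟨v, ⟨Z, hv, hZ, hZX, z, hz, hzs⟩, ⟨W, hv', hW, hWX, w, hw, hwt⟩⟩⟩ := h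
  · exact lnk_adj hs h
  · refine ⟨insert s (Z ∪ W), Set.mem_insert _ _,
      (hZ.union hW hv hv').insert (Or.inl hz) hzs, ?_, w, Or.inr (Or.inr hw), hwt⟩
    rintro y (rfl | hy | hy)
    · exact hs
    · exact fun h => hZX y hy (hX h)
    · exact fun h => hWX y hy (hX h)

lemma ej_symm {S : Finset V} {s t : V} (h : EJ G P Q S s t) : EJ G P Q S t s := by
  obtain ⟨h1, h2, h3, h4⟩ := h
  refine ⟨h2, h1, h3.symm, ?_⟩
  rcases h4 with h4 | ⟨v, h5, h6⟩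
  · exact Or.inl h4.symm
  · exact Or.inr ⟨v, h6, h5⟩

lemma lnk_mono {X X' : Set V} {s t : V} (hX : X' ⊆ X) (h : Lnk G X s t) : Lnk G X' s t := by
  obtain ⟨Z, h1, h2, h3, h4⟩ := h
  exact ⟨Z, h1, h2, fun z hz hz' => h3 z hz (hX hz'), h4⟩

theorem pe5 (hPE4 : PE4Stmt) : PE5Stmt := by
  intro V G P Q S hG hPol hc s1 s2 s3 s4 s5 n13 n14 n24 n25 n35 e12 e23 e34 e45 e51
  have hsub : XX P Q (S.erase s5) ⊆ XX P Q S := by
    rintro y (hy | hy)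
    · exact Or.inl hy
    · exact Or.inr (Finset.mem_coe.2 (Finset.mem_of_mem_erase (Finset.mem_coe.1 hy)))
  have hPol' : Pol G P Q (S.erase s5) :=
    ⟨hPol.cP, hPol.cQ, hPol.dis, fun s hs => hPol.oP s (Finset.mem_of_mem_erase hs),
      fun s hs => hPol.oQ s (Finset.mem_of_mem_erase hs),
      fun s hs => hPol.aP s (Finset.mem_of_mem_erase hs),
      fun s hs => hPol.aQ s (Finset.mem_of_mem_erase hs)⟩
  have hs5 : s5 ∈ S := e51.1
  have hs5X : s5 ∉ XX P Q (S.erase s5) := by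
    rintro ((h | h) | h)
    · exact hPol.oP s5 hs5 h
    · exact hPol.oQ s5 hs5 h
    · exact Finset.notMem_erase s5 S (Finset.mem_coe.1 h)
  have tr : ∀ s t, EJ G P Q S s t → s ≠ s5 → t ≠ s5 → EJ G P Q (S.erase s5) s t := by
    rintro s t ⟨h1, h2, h3, h4⟩ hs ht
    refine ⟨Finset.mem_erase.2 ⟨hs, h1⟩, Finset.mem_erase.2 ⟨ht, h2⟩, h3, ?_⟩
    rcases h4 with h4 | ⟨v, h5, h6⟩
    · exact Or.inl h4
    · exact Or.inr ⟨v, lnk_mono hsub h5, lnk_mono hsub h6⟩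
  have n15 : s1 ≠ s5 := e51.2.2.1.symm
  have n45 : s4 ≠ s5 := e45.2.2.1
  refine hPE4 V G P Q (S.erase s5) hG hPol' ?_ s1 s2 s3 s4 n13 n24 (tr _ _ e12 n15 n25)
    (tr _ _ e23 n25 n35) (tr _ _ e34 n35 n45) ?_
  · rcases hc with hc | hc
    · exact Or.inl hc
    · right
      rw [Finset.card_erase_of_mem hs5]
      omega
  · refine ⟨Finset.mem_erase.2 ⟨n45, e45.1⟩, Finset.mem_erase.2 ⟨n15, e51.2.1⟩, n14.symm,
      Or.inr ⟨s5, lnk_of_ej (ej_symm e45) hsub hs5X, lnk_of_ej e51 hsub hs5X⟩⟩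

end Pool.Agent.H87.RCQ.PE5
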