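import Pool.Agent.H6.RCQ.Stmts1
import Pool.Agent.H6.RCQ.Stmts3

/-!
# Project RCQ, module R3A
-/

set_option autoImplicit false

namespace Pool.Agent.H87.RCQ.R3A

open Pool.Agent.H39.RC Pool.Agent.H6.RCQ
open Classical

lemma ej_symm {V : Type} {G : SimpleGraph V} {P Q : Set V} {S : Finset V} {s t : V}
    (h : EJ G P Q S s t) : EJ G P Q S t s := by
  obtain ⟨h1, h2, h3, h4⟩ := h
  refine ⟨h2, h1, h3.symm, ?_⟩
  rcases h4 with h4 | ⟨v, h5, h6⟩
  · exact Or.inl h4.symm
  · exact Or.inr ⟨v, h6, h5⟩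

theorem r3a (hR3L : R3LStmt) (hPE3 : PE3Stmt) : R3AStmt := by
  intro V G R x c hLf hxc h3 hII
  have hG := hLf.pg
  set S := CN G R x c with hS
  have memS : ∀ s, s ∈ S ↔ s ∈ R ∧ G.Adj x s ∧ G.Adj c s := fun s => Finset.mem_filter
  have hPol : Pol G {x} {c} S := by
    refine ⟨con_single x, con_single c, ?_, ?_, ?_, ?_, ?_⟩
    · rw [Set.disjoint_singleton]
      exact hxc.ne
    · exact fun s hs => ((memS s).1 hs).2.1.ne'
    · exact fun s hs => ((memS s).1 hs).2.2.ne'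
    · exact fun s hs => ⟨x, rfl, ((memS s).1 hs).2.1⟩
    · exact fun s hs => ⟨c, rfl, ((memS s).1 hs).2.2⟩
  have hPadj : PAdj G {x} {c} := ⟨x, rfl, c, rfl, hxc⟩
  have key : ∀ u ∈ II G R x c, ∃ a b d, S = {a, b, d} ∧ a ≠ b ∧ a ≠ d ∧ b ≠ d ∧ G.Adj u b ∧
      EJ G {x} {c} S a b ∧ EJ G {x} {c} S b d ∧ (G.Adj b a ∨ G.Adj b d) ∧
      (Lnk G (XX {x} {c} S) u a ∨ G.Adj b a) ∧ (Lnk G (XX {x} {c} S) u d ∨ G.Adj b d) := by
    intro u hu
    obtain ⟨huR, hux, huc, hax, hac⟩ := Finset.mem_filter.1 hu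
    refine hR3L V G {x} {c} S hG hPol hPadj h3 u ?_ ?_
    · rintro ((h | h) | h)
      · exact hux h
      · exact huc h
      · exact hax ((memS u).1 (Finset.mem_coe.1 h)).2.1
    · intro s hs
      obtain ⟨hsR, hxs, hcs⟩ := (memS s).1 hs
      have hus : u ≠ s := fun h => hax (h ▸ hxs)
      rcases hLf.lk u huR s hsR hus with h | ⟨w, -, h1, h2⟩
      · exact Or.inl h
      · refine Or.inr ⟨w, ?_, h1, h2⟩
        rintro (hw | hw)
        · rw [Set.mem_singleton_iff] at hw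
          exact hax (hw ▸ h1.symm)
        · rw [Set.mem_singleton_iff] at hw
          exact hac (hw ▸ h1.symm)
  obtain ⟨u0, hu0⟩ := hII
  obtain ⟨a, b, d, hSe, nab, nad, nbd, -, eab, ebd, hadj, -, -⟩ := key u0 hu0
  have hnad : ¬ EJ G {x} {c} S a d := by
    intro h
    exact hPE3 V G {x} {c} S hG hPol (Or.inl hPadj) a b d eab ebd (ej_symm h)
  refine ⟨a, b, d, hSe, nab, nad, nbd, eab, ebd, hadj, ?_⟩
  intro u hu
  obtain ⟨a', b', d', hSe', nab', nad', nbd', hub, eab', ebd', -, l1, l2⟩ := key u hu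
  have m : ∀ s, s ∈ S ↔ s = a ∨ s = b ∨ s = d := by
    intro s
    rw [hSe]
    simp only [Finset.mem_insert, Finset.mem_singleton]
  have m' : ∀ s, s ∈ S ↔ s = a' ∨ s = b' ∨ s = d' := by
    intro s
    rw [hSe']
    simp only [Finset.mem_insert, Finset.mem_singleton]
  have ha' := (m a').1 ((m' a').2 (Or.inl rfl))
  have hb' := (m b').1 ((m' b').2 (Or.inr (Or.inl rfl)))
  have hd' := (m d').1 ((m' d').2 (Or.inr (Or.inr rfl)))
  have hbb : b' = b := by
    rcases hb' with h | h | h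
    · exfalso
      rw [h] at eab' ebd' nab' nbd'
      rcases ha' with h1 | h1 | h1
      · exact nab' h1
      · rcases hd' with h2 | h2 | h2
        · exact nbd' h2.symm
        · exact nad' (h1.trans h2.symm)
        · exact hnad (h2 ▸ ebd')
      · exact hnad (ej_symm (h1 ▸ eab'))
    · exact h
    · exfalso
      rw [h] at eab' ebd' nab' nbd'
      rcases ha' with h1 | h1 | h1
      · exact hnad (h1 ▸ eab')
      · rcases hd' with h2 | h2 | h2
        · exact hnad (ej_symm (h2 ▸ ebd'))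
        · exact nad' (h1.trans h2.symm)
        · exact nbd' h2.symm
      · exact nab' h1
  rw [hbb] at hub l1 l2 nab' nbd'
  rcases ha' with h1 | h1 | h1
  · rcases hd' with h2 | h2 | h2
    · exact absurd (h1.trans h2.symm) nad'
    · exact absurd h2.symm nbd'
    · rw [h1] at l1
      rw [h2] at l2
      exact ⟨hub, l1, l2⟩
  · exact absurd h1 nab'
  · rcases hd' with h2 | h2 | h2
    · rw [h1] at l1
      rw [h2] at l2
      exact ⟨hub, l2, l1⟩
    · exact absurd h2.symm nbd'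
    · exact absurd (h1.trans h2.symm) nad'

end Pool.Agent.H87.RCQ.R3A
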